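import Pool.Agent.SCT.StmtsP

/-!
Squad SCT (MP_02d4f5_ag), row CNT (helper75): a count of transcendence degrees.
-/

set_option autoImplicit false

namespace Pool.Agent.SCT.H75

open Cardinal

/-- row CNT -/
theorem cnt : CntStmt := by
  intro E Ω _ _ _ C C1 b1 b2 d hb hC h1 h2 hd
  obtain ⟨ι, s, hs⟩ := exists_isTranscendenceBasis' E C
  have hx : AlgebraicIndependent E (Sum.elim ![b1, b2] (algebraMap C Ω ∘ s)) :=
    hs.1.sumElim_comp hb
  -- all the elements are in the algebraic closure of `C1`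
  have hmem : ∀ i, (Sum.elim ![b1, b2] (algebraMap C Ω ∘ s)) i ∈ algebraicClosure C1 Ω := by
    intro i
    rw [mem_algebraicClosure_iff]
    rcases i with i | i
    · fin_cases i
      · exact h1
      · exact h2
    · exact hC _ (s i).2
  let A := algebraicClosure C1 Ω
  let z : Fin 2 ⊕ ι → A := fun i => ⟨_, hmem i⟩
  have htow : IsScalarTower E A Ω := IsScalarTower.of_algebraMap_eq (fun x => rfl)
  have htow2 : IsScalarTower E C1 A := IsScalarTower.of_algebraMap_eq (fun x => rfl)
  have hz : AlgebraicIndependent E z := by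
    have h : Function.Injective (IsScalarTower.toAlgHom E A Ω) := (IsScalarTower.toAlgHom E A Ω).injective
    have h3 := AlgHom.algebraicIndependent_iff (x := z) (IsScalarTower.toAlgHom E A Ω) h
    rw [← h3]
    exact hx
  have h4 : #(Fin 2 ⊕ ι) ≤ Algebra.trdeg E A := hz.cardinalMk_le_trdeg
  have h5 : Algebra.trdeg E C1 + Algebra.trdeg C1 A = Algebra.trdeg E A := trdeg_add_eq E C1
  have h6 : Algebra.trdeg C1 A = 0 := trdeg_eq_zero
  rw [← h5, h6, add_zero] at h4
  have h7 : #(Fin 2 ⊕ ι) = #ι + (2 : ℕ) := by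
    rw [Cardinal.mk_sum, Cardinal.lift_id, Cardinal.lift_id, Cardinal.mk_fin, add_comm]
  rw [h7] at h4
  have h8 : #ι + (2 : ℕ) ≤ (d : Cardinal) + (2 : ℕ) := by
    refine h4.trans (hd.trans (le_of_eq ?_))
    push_cast
    rfl
  have h9 : #ι ≤ (d : Cardinal) := (Cardinal.add_nat_le_add_nat_iff 2).1 h8
  rw [← hs.cardinalMk_eq_trdeg]
  exact h9

end Pool.Agent.SCT.H75
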